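import Pool.Agent.H318R3.GM.Final

set_option autoImplicit false

open MeasureTheory Metric

namespace Pool.Agent.Results.MP_77d991_gt.MaxGromovMass

/-- An `o`-symmetric convex body in `ℝ^d`: compact, convex, with non-empty interior, and `M = -M`. -/
def IsSymmetricConvexBody {d : ℕ} (M : Set (EuclideanSpace ℝ (Fin d))) : Prop :=
  IsCompact M ∧ Convex ℝ M ∧ (interior M).Nonempty ∧ ∀ x ∈ M, -x ∈ M

/-- The cross-polytope `conv {±v_1, …, ±v_d}`. -/
def crossPolytope {d : ℕ} (v : Fin d → EuclideanSpace ℝ (Fin d)) :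
    Set (EuclideanSpace ℝ (Fin d)) :=
  convexHull ℝ (Set.range v ∪ Set.range fun i => -v i)

/-- The supremum of the volumes of the cross-polytopes inscribed in `M` (for a convex body it is
attained, by compactness, and positive). -/
noncomputable def maxCrossVolume {d : ℕ} (M : Set (EuclideanSpace ℝ (Fin d))) : ℝ :=
  sSup {V : ℝ | ∃ v : Fin d → EuclideanSpace ℝ (Fin d), LinearIndependent ℝ v ∧ (∀ i, v i ∈ M) ∧
    V = (volume (crossPolytope v)).toReal}

/-- Gromov's mass of the unit ball `M`. -/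
noncomputable def gromovMass {d : ℕ} (M : Set (EuclideanSpace ℝ (Fin d))) : ℝ :=
  2 ^ d / (d.factorial : ℝ) * ((volume M).toReal / maxCrossVolume M)

/-- The greatest value of Gromov's mass over the `o`-symmetric convex bodies in `ℝ^d` is the volume
`π^{d/2} / Γ(d/2 + 1)` of the Euclidean unit ball, and it is attained exactly by the ellipsoids. -/
theorem result (d : ℕ) (hd : 1 ≤ d) :
    IsGreatest {m : ℝ | ∃ M : Set (EuclideanSpace ℝ (Fin d)),
        IsSymmetricConvexBody M ∧ m = gromovMass M}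
      (√Real.pi ^ d / Real.Gamma ((d : ℝ) / 2 + 1)) ∧
    ∀ M : Set (EuclideanSpace ℝ (Fin d)), IsSymmetricConvexBody M →
      (gromovMass M = √Real.pi ^ d / Real.Gamma ((d : ℝ) / 2 + 1) ↔
        ∃ A : EuclideanSpace ℝ (Fin d) ≃ₗ[ℝ] EuclideanSpace ℝ (Fin d),
          M = A '' closedBall (0 : EuclideanSpace ℝ (Fin d)) 1) := by
  have hk := H318R3.GM.kap_eq (d := d) hd
  have hbody : ∀ M : Set (EuclideanSpace ℝ (Fin d)), IsSymmetricConvexBody M →
      H318R3.GM.IsSymmBody M := fun M hM => ⟨hM.1, hM.2.1, hM.2.2.1, hM.2.2.2⟩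
  have hmass : ∀ M : Set (EuclideanSpace ℝ (Fin d)), gromovMass M = H318R3.GM.gromovMass M :=
    fun M => rfl
  refine ⟨⟨?_, ?_⟩, ?_⟩
  · have hb := H318R3.GM.ellipsoid_body (LinearEquiv.refl ℝ (EuclideanSpace ℝ (Fin d)))
    refine ⟨_, ⟨hb.isCompact, hb.convex, hb.interior_nonempty, hb.neg_mem⟩, ?_⟩
    rw [hmass, H318R3.GM.gromovMass_ellipsoid hd, hk]
  · rintro m ⟨M, hM, rfl⟩
    rw [hmass, ← hk]
    exact H318R3.GM.gromovMass_le hd (hbody M hM)
  · intro M hM
    rw [hmass, ← hk]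
    exact H318R3.GM.gromovMass_eq_iff hd (hbody M hM)

end Pool.Agent.Results.MP_77d991_gt.MaxGromovMass
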